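import Mathlib
import Pool.Agent.H807R2.Dav1

set_option autoImplicit false

/-! Random residues with small Fourier coefficients: the characteristic function of the representative in
`[0, q)` at all frequencies, and the probability of an interval. -/

namespace Pool.Agent.U613.GR
open Finset
open Pool.Agent.H807R2.Dav

/-- the character of `ℤ / q` -/
noncomputable abbrev ψ {q : ℕ} [NeZero q] : AddChar (ZMod q) ℂ := ZMod.stdAddChar (N := q)

section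
variable {q : ℕ} [NeZero q]

lemma q_pos : 0 < q := Nat.pos_of_ne_zero (NeZero.ne q)

lemma ψ_int (j : ℤ) : ψ ((j : ℤ) : ZMod q) = ee ((j : ℝ) / q) := by
  rw [ψ, ZMod.stdAddChar_coe]
  unfold ee
  congr 1
  push_cast
  ring

lemma ψ_mul (a y : ZMod q) : ψ (-(a * y)) = ee ((y.val : ℝ) * (-((a.val : ℝ) / q))) := by
  have h : (-(a * y) : ZMod q) = ((-((a.val : ℤ) * (y.val : ℤ)) : ℤ) : ZMod q) := by
    push_cast
    rw [ZMod.natCast_zmod_val, ZMod.natCast_zmod_val]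
  rw [h, ψ_int]
  congr 1
  push_cast
  ring

lemma norm_ψ (a : ZMod q) : ‖ψ a‖ = 1 := by
  obtain ⟨n, rfl⟩ := ZMod.intCast_surjective a
  rw [ψ_int, norm_ee]

lemma sum_val {M : Type} [AddCommMonoid M] (f : ℕ → M) : ∑ y : ZMod q, f y.val = ∑ n ∈ range q, f n := by
  refine sum_bij (fun y _ => y.val) (fun y _ => mem_range.2 (ZMod.val_lt y))
    (fun a _ b _ h => ZMod.val_injective q h) (fun n hn => ⟨(n : ZMod q), mem_univ _, ?_⟩) (fun _ _ => rfl)
  exact ZMod.val_natCast_of_lt (mem_range.1 hn)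

/-- the kernel -/
noncomputable def Ker (F : ℕ → ℂ) (a : ZMod q) : ℂ := ∑ y : ZMod q, F y.val * ψ (-(a * y))

lemma complete {ι : Type} (Ω : Finset ι) (p : ι → ℝ) (v : ι → ℕ) (hv : ∀ ω ∈ Ω, v ω < q) (F : ℕ → ℂ) :
    (q : ℂ) * ∑ ω ∈ Ω, (p ω : ℂ) * F (v ω) =
      ∑ a : ZMod q, (∑ ω ∈ Ω, (p ω : ℂ) * ψ (a * (v ω : ZMod q))) * Ker F a := by
  classical
  have h1 : ∀ a : ZMod q, (∑ ω ∈ Ω, (p ω : ℂ) * ψ (a * (v ω : ZMod q))) * Ker F a =
      ∑ ω ∈ Ω, ∑ y : ZMod q, ((p ω : ℂ) * F y.val) * ψ (a * ((v ω : ZMod q) - y)) := by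
    intro a
    unfold Ker
    rw [sum_mul_sum]
    refine sum_congr rfl fun ω _ => sum_congr rfl fun y _ => ?_
    have : ψ (a * ((v ω : ZMod q) - y)) = ψ (a * (v ω : ZMod q)) * ψ (-(a * y)) := by
      rw [← AddChar.map_add_eq_mul]
      congr 1
      ring
    rw [this]
    ring
  simp only [h1]
  rw [sum_comm, mul_sum]
  refine sum_congr rfl fun ω hω => ?_
  rw [sum_comm]
  have h2 : ∀ y : ZMod q, ∑ a : ZMod q, ((p ω : ℂ) * F y.val) * ψ (a * ((v ω : ZMod q) - y)) =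
      if (v ω : ZMod q) = y then (q : ℂ) * ((p ω : ℂ) * F y.val) else 0 := by
    intro y
    rw [← mul_sum, AddChar.sum_mulShift _ (ZMod.isPrimitive_stdAddChar q), ZMod.card]
    by_cases h : (v ω : ZMod q) = y
    · rw [if_pos h, if_pos (sub_eq_zero.2 h)]
      ring
    · rw [if_neg h, if_neg (sub_ne_zero.2 h)]
      simp
  simp only [h2]
  rw [sum_ite_eq, if_pos (mem_univ _), ZMod.val_natCast_of_lt (hv ω hω)]

lemma sum_erase_zero (f : ZMod q → ℝ) : ∑ a : ZMod q, f a = f 0 + ∑ a ∈ univ.erase (0 : ZMod q), f a :=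
  (add_sum_erase _ _ (mem_univ _)).symm

/-- the sum over the values -/
lemma norm_le {ι : Type} (Ω : Finset ι) (p : ι → ℝ) (v : ι → ℕ) (hp : ∀ ω ∈ Ω, 0 ≤ p ω) (hp1 : ∑ ω ∈ Ω, p ω ≤ 1)
    (hv : ∀ ω ∈ Ω, v ω < q) (F : ℕ → ℂ) (δ : ℝ)
    (hδ : ∀ a : ZMod q, a ≠ 0 → ‖∑ ω ∈ Ω, (p ω : ℂ) * ψ (a * (v ω : ZMod q))‖ ≤ δ) :
    (q : ℝ) * ‖∑ ω ∈ Ω, (p ω : ℂ) * F (v ω)‖ ≤ ‖Ker (q := q) F 0‖ + δ * ∑ a ∈ univ.erase (0 : ZMod q), ‖Ker F a‖ := by
  have h1 : (q : ℝ) * ‖∑ ω ∈ Ω, (p ω : ℂ) * F (v ω)‖ = ‖(q : ℂ) * ∑ ω ∈ Ω, (p ω : ℂ) * F (v ω)‖ := by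
    rw [norm_mul, Complex.norm_natCast]
  rw [h1, complete Ω p v hv F]
  refine (norm_sum_le _ _).trans ?_
  rw [sum_erase_zero]
  apply add_le_add
  · rw [norm_mul]
    refine mul_le_of_le_one_left (norm_nonneg _) ?_
    refine (norm_sum_le _ _).trans (le_trans ?_ hp1)
    apply sum_le_sum
    intro ω hω
    rw [norm_mul, norm_ψ, mul_one, Complex.norm_real, Real.norm_of_nonneg (hp ω hω)]
  · rw [mul_sum]
    apply sum_le_sum
    intro a ha
    rw [norm_mul]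
    exact mul_le_mul_of_nonneg_right (hδ a (ne_of_mem_erase ha)) (norm_nonneg _)

lemma harm : ∑ a ∈ univ.erase (0 : ZMod q), ((q : ℝ) / a.val + (q : ℝ) / ((q : ℝ) - a.val)) ≤ 2 * q * (1 + Real.log q) := by
  have hq := q_pos (q := q)
  have hqr : (0 : ℝ) < q := by exact_mod_cast hq
  have h1 : ∑ a ∈ univ.erase (0 : ZMod q), ((q : ℝ) / a.val + (q : ℝ) / ((q : ℝ) - a.val)) =
      ∑ n ∈ (range q).erase 0, ((q : ℝ) / n + (q : ℝ) / ((q : ℝ) - n)) := by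
    refine sum_bij (fun y _ => y.val) (fun y hy => ?_) (fun a _ b _ h => ZMod.val_injective q h)
      (fun n hn => ⟨(n : ZMod q), ?_, ?_⟩) (fun _ _ => rfl)
    · rw [mem_erase, mem_range]
      refine ⟨?_, ZMod.val_lt y⟩
      rw [Ne, ZMod.val_eq_zero]
      exact ne_of_mem_erase hy
    · rw [mem_erase, mem_range] at hn
      rw [mem_erase]
      refine ⟨fun h0 => hn.1 ?_, mem_univ _⟩
      have := congrArg ZMod.val h0
      rwa [ZMod.val_natCast_of_lt hn.2, ZMod.val_zero] at this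
    · rw [mem_erase, mem_range] at hn
      exact ZMod.val_natCast_of_lt hn.2
  rw [h1]
  obtain ⟨k, rfl⟩ : ∃ k, q = k + 1 := ⟨q - 1, by omega⟩
  have h2 : (range (k + 1)).erase 0 = (range k).image (fun i => i + 1) := by
    ext n
    simp only [mem_erase, mem_range, mem_image]
    constructor
    · rintro ⟨h3, h4⟩
      exact ⟨n - 1, by omega, by omega⟩
    · rintro ⟨i, h3, rfl⟩
      omega
  rw [h2, sum_image (by intro a _ b _ h; simpa using h), sum_add_distrib]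
  have h3 : ∑ i ∈ range k, (((k + 1 : ℕ) : ℝ) / (((k + 1 : ℕ) : ℝ) - ((i + 1 : ℕ) : ℝ))) =
      ∑ i ∈ range k, (((k + 1 : ℕ) : ℝ) / ((i + 1 : ℕ) : ℝ)) := by
    rw [← sum_range_reflect]
    refine sum_congr rfl fun i hi => ?_
    rw [mem_range] at hi
    congr 1
    have : ((k - 1 - i : ℕ) : ℝ) = (k : ℝ) - 1 - i := by
      rw [Nat.cast_sub (by omega), Nat.cast_sub (by omega)]
      simp
    push_cast
    rw [this]
    ring
  rw [h3, ← two_mul]
  have h4 : ∑ i ∈ range k, (((k + 1 : ℕ) : ℝ) / ((i + 1 : ℕ) : ℝ)) = ((k + 1 : ℕ) : ℝ) * (harmonic k : ℝ) := by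
    unfold harmonic
    push_cast
    rw [mul_sum]
    refine sum_congr rfl fun i _ => ?_
    rw [div_eq_mul_inv]
  rw [h4]
  have h5 : (harmonic k : ℝ) ≤ 1 + Real.log ((k + 1 : ℕ) : ℝ) := by
    refine (harmonic_le_one_add_log k).trans ?_
    have : Real.log (k : ℝ) ≤ Real.log ((k + 1 : ℕ) : ℝ) := by
      rcases Nat.eq_zero_or_pos k with h0 | h0
      · subst h0
        simp
      · apply Real.log_le_log (by exact_mod_cast h0)
        push_cast
        linarith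
    linarith
  have h6 : ((k + 1 : ℕ) : ℝ) * (harmonic k : ℝ) ≤ ((k + 1 : ℕ) : ℝ) * (1 + Real.log ((k + 1 : ℕ) : ℝ)) :=
    mul_le_mul_of_nonneg_left h5 hqr.le
  linarith

lemma two_div (a : ZMod q) (ha : a ≠ 0) (d : ℝ) (hd : 2 * min ((a.val : ℝ)) ((q : ℝ) - a.val) / q ≤ d) :
    2 / d ≤ (q : ℝ) / a.val + (q : ℝ) / ((q : ℝ) - a.val) := by
  have hq := q_pos (q := q)
  have hqr : (0 : ℝ) < q := by exact_mod_cast hq
  have h1 : (0 : ℝ) < a.val := by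
    have : a.val ≠ 0 := by rwa [Ne, ZMod.val_eq_zero]
    exact_mod_cast Nat.pos_of_ne_zero this
  have h2 : (0 : ℝ) < (q : ℝ) - a.val := by
    have : a.val < q := ZMod.val_lt a
    have : (a.val : ℝ) < q := by exact_mod_cast this
    linarith
  have h3 : 0 < min ((a.val : ℝ)) ((q : ℝ) - a.val) := lt_min h1 h2
  have h4 : 2 / d ≤ q / min ((a.val : ℝ)) ((q : ℝ) - a.val) := by
    have hd0 : 0 < d := lt_of_lt_of_le (by positivity) hd
    rw [div_le_iff₀ hqr] at hd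
    rw [div_le_div_iff₀ hd0 h3]
    linarith
  refine h4.trans ?_
  rcases le_total ((a.val : ℝ)) ((q : ℝ) - a.val) with h | h
  · rw [min_eq_left h]
    have : 0 ≤ (q : ℝ) / ((q : ℝ) - a.val) := by positivity
    linarith
  · rw [min_eq_right h]
    have : 0 ≤ (q : ℝ) / (a.val : ℝ) := by positivity
    linarith

lemma geo (u w : ℕ) (x : ℝ) (hx : 0 < dd x) : ‖∑ m ∈ Ico u w, ee (m * x)‖ ≤ 2 / dd x := by
  rcases Nat.lt_or_ge w u with h | h
  · rw [Ico_eq_empty (by omega), sum_empty, norm_zero]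
    positivity
  · have h3 : (1 - ee x) * ∑ m ∈ Ico u w, ee (m * x) = ee x ^ u - ee x ^ w := by
      simp only [ee_pow]
      have := geom_sum_Ico_mul (ee x) h
      linear_combination -this
    have h4 : dd x * ‖∑ m ∈ Ico u w, ee (m * x)‖ ≤ 2 := by
      unfold dd
      rw [← norm_mul, h3]
      refine (norm_sub_le _ _).trans ?_
      rw [norm_pow, norm_pow, norm_ee, one_pow, one_pow]
      norm_num
    rw [le_div_iff₀ hx]
    linarith

lemma Ker_ee (θ : ℝ) (a : ZMod q) : Ker (fun n => ee (n * θ)) a = ∑ n ∈ Ico 0 q, ee (n * (θ - (a.val : ℝ) / q)) := by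
  unfold Ker
  rw [← range_eq_Ico, ← sum_val (q := q) (fun n => ee (n * (θ - (a.val : ℝ) / q)))]
  refine sum_congr rfl fun y _ => ?_
  rw [ψ_mul, ← ee_add]
  congr 1
  ring

lemma Ker_zero (θ : ℝ) (h : 0 < dd θ) : ‖Ker (q := q) (fun n => ee (n * θ)) 0‖ ≤ 2 / dd θ := by
  rw [Ker_ee, ZMod.val_zero, Nat.cast_zero, zero_div, sub_zero]
  exact geo _ _ _ h

lemma Ker_le (θ : ℝ) (a : ZMod q) : ‖Ker (q := q) (fun n => ee (n * θ)) a‖ ≤ q := by
  rw [Ker_ee]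
  refine (norm_sum_le _ _).trans ?_
  simp only [norm_ee, sum_const, Nat.card_Ico, nsmul_eq_mul, mul_one, Nat.sub_zero]
  exact le_rfl

lemma Ker_near (ρ : ℝ) (hρ : |ρ| ≤ 1 / 2) (a : ZMod q) (ha : a ≠ 0) :
    ‖Ker (q := q) (fun n => ee (n * (ρ / q))) a‖ ≤ (q : ℝ) / a.val + (q : ℝ) / ((q : ℝ) - a.val) := by
  have hq := q_pos (q := q)
  have hqr : (0 : ℝ) < q := by exact_mod_cast hq
  have h1 : (1 : ℝ) ≤ a.val := by
    have : a.val ≠ 0 := by rwa [Ne, ZMod.val_eq_zero]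
    exact_mod_cast Nat.pos_of_ne_zero this
  have h2 : (1 : ℝ) ≤ (q : ℝ) - a.val := by
    have : a.val < q := ZMod.val_lt a
    have : (a.val : ℝ) + 1 ≤ q := by exact_mod_cast this
    linarith
  obtain ⟨h5, h6⟩ := abs_le.1 hρ
  rw [Ker_ee]
  have e1 : ρ / q - (a.val : ℝ) / q = -(((a.val : ℝ) - ρ) / q) := by ring
  have e2 : 2 * min ((a.val : ℝ)) ((q : ℝ) - a.val) / q ≤ dd (ρ / q - (a.val : ℝ) / q) := by
    rw [e1, dd_neg]
    refine le_trans ?_ (dd_ge (t := ((a.val : ℝ) - ρ) / q) (by apply div_nonneg _ hqr.le; linarith)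
      (by rw [div_le_one hqr]; linarith))
    have e3 : 1 - ((a.val : ℝ) - ρ) / q = ((q : ℝ) - a.val + ρ) / q := by field_simp; ring
    rw [e3, min_div_div_right hqr.le, div_le_iff₀ hqr, mul_assoc]
    rw [div_mul_cancel₀ _ hqr.ne']
    rcases le_total ((a.val : ℝ) - ρ) ((q : ℝ) - a.val + ρ) with h | h
    · rw [min_eq_left h]
      have := min_le_left ((a.val : ℝ)) ((q : ℝ) - a.val)
      linarith
    · rw [min_eq_right h]
      have := min_le_right ((a.val : ℝ)) ((q : ℝ) - a.val)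
      linarith
  have hd0 : 0 < dd (ρ / q - (a.val : ℝ) / q) := by
    refine lt_of_lt_of_le ?_ e2
    have : 0 < min ((a.val : ℝ)) ((q : ℝ) - a.val) := lt_min (by linarith) (by linarith)
    positivity
  exact (geo _ _ _ hd0).trans (two_div a ha _ e2)

lemma Ker_shift (m : ℤ) (ρ : ℝ) (a : ZMod q) :
    Ker (q := q) (fun n => ee (n * ((m : ℝ) / q + ρ / q))) a = Ker (q := q) (fun n => ee (n * (ρ / q))) (a - (m : ZMod q)) := by
  unfold Ker
  refine sum_congr rfl fun y _ => ?_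
  have e1 : ee ((y.val : ℝ) * ((m : ℝ) / q + ρ / q)) = ee ((y.val : ℝ) * (ρ / q)) * ψ ((m : ZMod q) * y) := by
    have : ((m : ZMod q) * y) = (((m * (y.val : ℤ) : ℤ)) : ZMod q) := by
      push_cast
      rw [ZMod.natCast_zmod_val]
    rw [this, ψ_int, ← ee_add]
    congr 1
    push_cast
    ring
  have e2 : ψ (-((a - (m : ZMod q)) * y)) = ψ ((m : ZMod q) * y) * ψ (-(a * y)) := by
    rw [← AddChar.map_add_eq_mul]
    congr 1
    ring
  rw [e2]
  simp only [e1]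
  ring

/-- the sum of all the kernels -/
lemma Ker_sum (θ : ℝ) : ∑ a : ZMod q, ‖Ker (q := q) (fun n => ee (n * θ)) a‖ ≤ q * (3 + 2 * Real.log q) := by
  have hq := q_pos (q := q)
  have hqr : (0 : ℝ) < q := by exact_mod_cast hq
  obtain ⟨m, hm⟩ : ∃ m : ℤ, m = round (θ * q) := ⟨_, rfl⟩
  obtain ⟨ρ, hρ⟩ : ∃ ρ : ℝ, ρ = θ * q - m := ⟨_, rfl⟩
  have hρ2 : |ρ| ≤ 1 / 2 := by
    rw [hρ, hm]
    exact abs_sub_round _
  have hθ : θ = (m : ℝ) / q + ρ / q := by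
    rw [hρ]
    field_simp
    ring
  rw [hθ]
  simp only [Ker_shift]
  have h0 := Equiv.sum_comp (Equiv.subRight ((m : ℤ) : ZMod q)) (fun b => ‖Ker (q := q) (fun n => ee (n * (ρ / q))) b‖)
  simp only [Equiv.subRight_apply] at h0
  rw [h0, sum_erase_zero]
  have h1 := Ker_le (q := q) (ρ / q) 0
  have h2 : ∑ a ∈ univ.erase (0 : ZMod q), ‖Ker (q := q) (fun n => ee (n * (ρ / q))) a‖ ≤ 2 * q * (1 + Real.log q) :=
    (sum_le_sum fun a ha => Ker_near ρ hρ2 a (ne_of_mem_erase ha)).trans harm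
  linarith

/-- the characteristic function -/
theorem char_le {ι : Type} (Ω : Finset ι) (p : ι → ℝ) (v : ι → ℕ) (hp : ∀ ω ∈ Ω, 0 ≤ p ω) (hp1 : ∑ ω ∈ Ω, p ω ≤ 1)
    (hv : ∀ ω ∈ Ω, v ω < q) (δ : ℝ) (hδ0 : 0 ≤ δ)
    (hδ : ∀ a : ZMod q, a ≠ 0 → ‖∑ ω ∈ Ω, (p ω : ℂ) * ψ (a * (v ω : ZMod q))‖ ≤ δ) (θ : ℝ) (hθ : 0 < dd θ) :
    ‖∑ ω ∈ Ω, (p ω : ℂ) * ee ((v ω : ℝ) * θ)‖ ≤ 2 / (q * dd θ) + δ * (3 + 2 * Real.log q) := by
  have hq := q_pos (q := q)
  have hqr : (0 : ℝ) < q := by exact_mod_cast hq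
  have h1 := norm_le (q := q) Ω p v hp hp1 hv (fun n => ee (n * θ)) δ hδ
  have h2 := Ker_zero (q := q) θ hθ
  have h3 := Ker_sum (q := q) θ
  have h4 : ∑ a ∈ univ.erase (0 : ZMod q), ‖Ker (q := q) (fun n => ee (n * θ)) a‖ ≤ q * (3 + 2 * Real.log q) :=
    (sum_le_sum_of_subset_of_nonneg (erase_subset _ _) fun _ _ _ => norm_nonneg _).trans h3
  have h5 : (q : ℝ) * ‖∑ ω ∈ Ω, (p ω : ℂ) * ee ((v ω : ℝ) * θ)‖ ≤ 2 / dd θ + δ * (q * (3 + 2 * Real.log q)) :=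
    h1.trans (add_le_add h2 (mul_le_mul_of_nonneg_left h4 hδ0))
  have h6 : 2 / (q * dd θ) + δ * (3 + 2 * Real.log q) = (2 / dd θ + δ * (q * (3 + 2 * Real.log q))) / q := by
    field_simp
  rw [h6, le_div_iff₀ hqr]
  linarith

/-- the probability of an interval -/
theorem prob_le {ι : Type} (Ω : Finset ι) (p : ι → ℝ) (v : ι → ℕ) (hp : ∀ ω ∈ Ω, 0 ≤ p ω) (hp1 : ∑ ω ∈ Ω, p ω ≤ 1)
    (hv : ∀ ω ∈ Ω, v ω < q) (δ : ℝ) (hδ0 : 0 ≤ δ)
    (hδ : ∀ a : ZMod q, a ≠ 0 → ‖∑ ω ∈ Ω, (p ω : ℂ) * ψ (a * (v ω : ZMod q))‖ ≤ δ) (u w : ℕ) (huw : u ≤ w) :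
    ∑ ω ∈ Ω, (if u ≤ v ω ∧ v ω < w then p ω else 0) ≤ ((w : ℝ) - u) / q + δ * (3 + 2 * Real.log q) := by
  classical
  have hq := q_pos (q := q)
  have hqr : (0 : ℝ) < q := by exact_mod_cast hq
  obtain ⟨F, hF⟩ : ∃ F : ℕ → ℂ, F = fun n => if u ≤ n ∧ n < w then 1 else 0 := ⟨_, rfl⟩
  have h1 := norm_le (q := q) Ω p v hp hp1 hv F δ hδ
  have hnn : 0 ≤ ∑ ω ∈ Ω, (if u ≤ v ω ∧ v ω < w then p ω else 0) := by
    apply sum_nonneg
    intro ω hω
    split_ifs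
    · exact hp ω hω
    · exact le_rfl
  have h0 : ∑ ω ∈ Ω, (p ω : ℂ) * F (v ω) = ((∑ ω ∈ Ω, (if u ≤ v ω ∧ v ω < w then p ω else 0) : ℝ) : ℂ) := by
    push_cast
    refine sum_congr rfl fun ω _ => ?_
    rw [hF]
    simp only
    split_ifs <;> simp
  rw [h0, Complex.norm_real, Real.norm_of_nonneg hnn] at h1
  have hK : ∀ a : ZMod q, Ker F a = ∑ n ∈ Ico u (min w q), ee (n * (-((a.val : ℝ) / q))) := by
    intro a
    unfold Ker
    have e1 : ∀ y : ZMod q, F y.val * ψ (-(a * y)) =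
        (fun n : ℕ => if u ≤ n ∧ n < w then ee (n * (-((a.val : ℝ) / q))) else 0) y.val := by
      intro y
      rw [ψ_mul, hF]
      simp only
      split_ifs <;> simp
    rw [sum_congr rfl fun y _ => e1 y, sum_val (q := q) (fun n : ℕ => if u ≤ n ∧ n < w then ee (n * (-((a.val : ℝ) / q))) else 0),
      ← sum_filter]
    refine sum_congr ?_ fun _ _ => rfl
    ext n
    simp only [mem_filter, mem_range, mem_Ico, lt_min_iff]
    tauto
  have h2 : ‖Ker (q := q) F 0‖ ≤ (w : ℝ) - u := by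
    rw [hK]
    refine (norm_sum_le _ _).trans ?_
    simp only [norm_ee, sum_const, Nat.card_Ico, nsmul_eq_mul, mul_one]
    have : min w q - u ≤ w - u := by omega
    calc ((min w q - u : ℕ) : ℝ) ≤ ((w - u : ℕ) : ℝ) := by exact_mod_cast this
      _ = _ := by rw [Nat.cast_sub huw]
  have h3 : ∑ a ∈ univ.erase (0 : ZMod q), ‖Ker (q := q) F a‖ ≤ 2 * q * (1 + Real.log q) := by
    refine (sum_le_sum fun a ha => ?_).trans harm
    have ha0 := ne_of_mem_erase ha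
    have g1 : (1 : ℝ) ≤ a.val := by
      have : a.val ≠ 0 := by rwa [Ne, ZMod.val_eq_zero]
      exact_mod_cast Nat.pos_of_ne_zero this
    have g2 : (1 : ℝ) ≤ (q : ℝ) - a.val := by
      have : a.val < q := ZMod.val_lt a
      have : (a.val : ℝ) + 1 ≤ q := by exact_mod_cast this
      linarith
    have e2 : 2 * min ((a.val : ℝ)) ((q : ℝ) - a.val) / q ≤ dd (-((a.val : ℝ) / q)) := by
      rw [dd_neg]
      refine le_trans ?_ (dd_ge (t := (a.val : ℝ) / q) (by positivity) (by rw [div_le_one hqr]; linarith))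
      have e3 : 1 - (a.val : ℝ) / q = ((q : ℝ) - a.val) / q := by field_simp
      rw [e3, min_div_div_right hqr.le, div_le_iff₀ hqr, mul_assoc]
      rw [div_mul_cancel₀ _ hqr.ne']
      have : 0 < min ((a.val : ℝ)) ((q : ℝ) - a.val) := lt_min (by linarith) (by linarith)
      linarith
    have hd0 : 0 < dd (-((a.val : ℝ) / q)) := by
      refine lt_of_lt_of_le ?_ e2
      have : 0 < min ((a.val : ℝ)) ((q : ℝ) - a.val) := lt_min (by linarith) (by linarith)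
      positivity
    rw [hK]
    exact (geo _ _ _ hd0).trans (two_div a ha0 _ e2)
  have hlog : 0 ≤ Real.log q := Real.log_natCast_nonneg q
  have h4 : (q : ℝ) * ∑ ω ∈ Ω, (if u ≤ v ω ∧ v ω < w then p ω else 0) ≤ ((w : ℝ) - u) + δ * (q * (3 + 2 * Real.log q)) := by
    refine h1.trans (add_le_add h2 (mul_le_mul_of_nonneg_left (h3.trans ?_) hδ0))
    nlinarith
  have h6 : ((w : ℝ) - u) / q + δ * (3 + 2 * Real.log q) = (((w : ℝ) - u) + δ * (q * (3 + 2 * Real.log q))) / q := by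
    field_simp
  rw [h6, le_div_iff₀ hqr]
  linarith

end

end Pool.Agent.U613.GR
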