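import Mathlib
import Pool.Agent.H373R2.T7.EnergyDef
import Pool.Agent.U613.GR.Comp

set_option autoImplicit false

/-! Families of integers near the small multiples of residues with small Fourier coefficients: their additive energy is
nearly minimal, hence every property of (vectors of) integers which holds for almost all members of all families of nearly
minimal energy holds for ALL the integers near the small multiples of almost all the residues. -/

namespace Pool.Agent.U613.GR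
open Finset
open Pool.Agent.H373R2.T7 (energy)

section
variable {q : ℕ} [NeZero q]

lemma ψ_sum {ι : Type} (s : Finset ι) (f : ι → ZMod q) : ψ (∑ i ∈ s, f i) = ∏ i ∈ s, ψ (f i) := by
  classical
  induction s using Finset.induction_on with
  | empty => rw [sum_empty, prod_empty, AddChar.map_zero_eq_one]
  | insert a s ha ih => rw [sum_insert ha, prod_insert ha, AddChar.map_add_eq_mul, ih]

lemma pow_eq (h : ℕ) (I : Finset ℕ) (v : ℕ → ZMod q) (a : ZMod q) :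
    (∑ n ∈ I, ψ (a * v n)) ^ h = ∑ u ∈ Fintype.piFinset (fun _ : Fin h => I), ψ (a * ∑ i, v (u i)) := by
  rw [← Fin.prod_const, Finset.prod_univ_sum]
  refine sum_congr rfl fun u _ => ?_
  rw [mul_sum, ψ_sum]

lemma conj_pow_eq (h : ℕ) (I : Finset ℕ) (v : ℕ → ZMod q) (a : ZMod q) :
    (starRingEnd ℂ (∑ n ∈ I, ψ (a * v n))) ^ h = ∑ u ∈ Fintype.piFinset (fun _ : Fin h => I), ψ (-(a * ∑ i, v (u i))) := by
  rw [← map_pow, pow_eq, map_sum]
  refine sum_congr rfl fun u _ => ?_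
  rw [← AddChar.map_neg_eq_conj]

lemma norm_pow_eq (z : ℂ) (h : ℕ) : ((‖z‖ ^ (2 * h) : ℝ) : ℂ) = z ^ h * (starRingEnd ℂ z) ^ h := by
  rw [← mul_pow, Complex.mul_conj', pow_mul]
  push_cast
  rfl

/-- the number of the solutions modulo `q` -/
def sols (h : ℕ) (I : Finset ℕ) (v : ℕ → ZMod q) : Finset ((Fin h → ℕ) × (Fin h → ℕ)) :=
  ((Fintype.piFinset fun _ : Fin h => I) ×ˢ (Fintype.piFinset fun _ : Fin h => I)).filter
    (fun w => ∑ i, v (w.1 i) = ∑ i, v (w.2 i))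

lemma energy_mod (h : ℕ) (I : Finset ℕ) (v : ℕ → ZMod q) :
    (q : ℝ) * ((sols h I v).card : ℝ) = ∑ a : ZMod q, ‖∑ n ∈ I, ψ (a * v n)‖ ^ (2 * h) := by
  have h1 : (((∑ a : ZMod q, ‖∑ n ∈ I, ψ (a * v n)‖ ^ (2 * h) : ℝ)) : ℂ) = (((q : ℝ) * ((sols h I v).card : ℝ) : ℝ) : ℂ) := by
    rw [Complex.ofReal_sum]
    have h2 : ∀ a : ZMod q, ((‖∑ n ∈ I, ψ (a * v n)‖ ^ (2 * h) : ℝ) : ℂ) =
        ∑ w ∈ (Fintype.piFinset fun _ : Fin h => I) ×ˢ (Fintype.piFinset fun _ : Fin h => I),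
          ψ (a * (∑ i, v (w.1 i) - ∑ i, v (w.2 i))) := by
      intro a
      rw [norm_pow_eq, pow_eq, conj_pow_eq, sum_mul_sum, sum_product]
      refine sum_congr rfl fun u _ => sum_congr rfl fun w _ => ?_
      rw [← AddChar.map_add_eq_mul]
      congr 1
      ring
    rw [sum_congr rfl fun a _ => h2 a, sum_comm]
    have h3 : ∀ w : (Fin h → ℕ) × (Fin h → ℕ), ∑ a : ZMod q, ψ (a * (∑ i, v (w.1 i) - ∑ i, v (w.2 i))) =
        if ∑ i, v (w.1 i) = ∑ i, v (w.2 i) then (q : ℂ) else 0 := by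
      intro w
      rw [AddChar.sum_mulShift _ (ZMod.isPrimitive_stdAddChar q), ZMod.card]
      simp only [sub_eq_zero]
      split_ifs <;> simp
    rw [sum_congr rfl fun w _ => h3 w, ← sum_filter, sum_const, nsmul_eq_mul]
    unfold sols
    push_cast
    ring
  exact_mod_cast h1.symm

lemma energy_mod_le (h : ℕ) (I : Finset ℕ) (v : ℕ → ZMod q) (β : ℝ) (hβ : 0 ≤ β)
    (H : ∀ a : ZMod q, a ≠ 0 → ‖∑ n ∈ I, ψ (a * v n)‖ ≤ I.card * β) :
    ((sols h I v).card : ℝ) ≤ (I.card : ℝ) ^ (2 * h) * (1 / q + β ^ (2 * h)) := by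
  have hq := q_pos (q := q)
  have hqr : (0 : ℝ) < q := by exact_mod_cast hq
  have h1 := energy_mod h I v
  have h2 : ∑ a : ZMod q, ‖∑ n ∈ I, ψ (a * v n)‖ ^ (2 * h) ≤ (I.card : ℝ) ^ (2 * h) + q * ((I.card : ℝ) * β) ^ (2 * h) := by
    rw [sum_erase_zero]
    apply add_le_add
    · apply pow_le_pow_left₀ (norm_nonneg _)
      refine (norm_sum_le _ _).trans ?_
      simp only [norm_ψ, sum_const, nsmul_eq_mul, mul_one]
      exact le_rfl
    · refine (sum_le_sum fun a ha => pow_le_pow_left₀ (norm_nonneg _) (H a (ne_of_mem_erase ha)) (2 * h)).trans ?_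
      rw [sum_const, nsmul_eq_mul]
      apply mul_le_mul_of_nonneg_right _ (by positivity)
      have h3 : (univ.erase (0 : ZMod q)).card ≤ q := by
        rw [card_erase_of_mem (mem_univ _), card_univ, ZMod.card]
        omega
      exact_mod_cast h3
  rw [← h1] at h2
  have h3 : (I.card : ℝ) ^ (2 * h) * (1 / q + β ^ (2 * h)) = ((I.card : ℝ) ^ (2 * h) + q * ((I.card : ℝ) * β) ^ (2 * h)) / q := by
    rw [mul_pow]
    field_simp
  rw [h3, le_div_iff₀ hqr]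
  linarith

lemma enum (J : Finset ℕ) : ∃ e : ℕ → ℕ, (∀ m ∈ Icc 1 J.card, e m ∈ J) ∧
    (∀ m ∈ Icc 1 J.card, ∀ m' ∈ Icc 1 J.card, e m = e m' → m = m') ∧ ∀ n ∈ J, ∃ m ∈ Icc 1 J.card, e m = n := by
  have hlt : ∀ m ∈ Icc 1 J.card, m - 1 < J.card := by
    intro m hm
    rw [mem_Icc] at hm
    omega
  refine ⟨fun m => if h : m - 1 < J.card then J.orderEmbOfFin rfl ⟨m - 1, h⟩ else 0, fun m hm => ?_, fun m hm m' hm' h => ?_,
    fun n hn => ?_⟩
  · simp only
    rw [dif_pos (hlt m hm)]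
    exact orderEmbOfFin_mem _ _ _
  · simp only at h
    rw [dif_pos (hlt m hm), dif_pos (hlt m' hm')] at h
    have h1 := (J.orderEmbOfFin rfl).injective h
    rw [Fin.mk.injEq] at h1
    rw [mem_Icc] at hm hm'
    omega
  · have h1 : n ∈ Set.range (J.orderEmbOfFin rfl) := by
      rw [range_orderEmbOfFin]
      exact hn
    obtain ⟨i, hi⟩ := h1
    have h2 := i.2
    refine ⟨i.1 + 1, by rw [mem_Icc]; omega, ?_⟩
    simp only [Nat.add_sub_cancel]
    rw [dif_pos h2]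
    exact hi

lemma energy_fam (h : ℕ) (I J : Finset ℕ) (hJ : J ⊆ I) (e : ℕ → ℕ) (he1 : ∀ m ∈ Icc 1 J.card, e m ∈ J)
    (he2 : ∀ m ∈ Icc 1 J.card, ∀ m' ∈ Icc 1 J.card, e m = e m' → m = m') (v : ℕ → ZMod q) (c κ : ℤ) (hκ : κ ≠ 0) :
    energy h J.card (fun m => c + κ * ((v (e m)).val : ℤ)) ≤ (sols h I v).card := by
  unfold energy
  apply card_le_card_of_injOn (fun w => (fun i => e (w.1 i), fun i => e (w.2 i)))
  · intro w hw
    rw [mem_coe, mem_filter, mem_product, Fintype.mem_piFinset, Fintype.mem_piFinset] at hw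
    obtain ⟨⟨h1, h2⟩, h3⟩ := hw
    unfold sols
    rw [mem_coe, mem_filter, mem_product, Fintype.mem_piFinset, Fintype.mem_piFinset]
    refine ⟨⟨fun i => hJ (he1 _ (h1 i)), fun i => hJ (he1 _ (h2 i))⟩, ?_⟩
    simp only [sum_add_distrib, ← mul_sum] at h3
    have h4 : ∑ i, ((v (e (w.1 i))).val : ℤ) = ∑ i, ((v (e (w.2 i))).val : ℤ) := by
      have h5 : κ * ∑ i, ((v (e (w.1 i))).val : ℤ) = κ * ∑ i, ((v (e (w.2 i))).val : ℤ) := by linarith
      exact mul_left_cancel₀ hκ h5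
    have h6 := congrArg (fun z : ℤ => (z : ZMod q)) h4
    simp only [Int.cast_sum, Int.cast_natCast, ZMod.natCast_zmod_val] at h6
    exact h6
  · intro w hw w' hw' heq
    rw [mem_coe, mem_filter, mem_product, Fintype.mem_piFinset, Fintype.mem_piFinset] at hw hw'
    simp only [Prod.mk.injEq] at heq
    apply Prod.ext
    · funext i
      exact he2 _ (hw.1.1 i) _ (hw'.1.1 i) (congrFun heq.1 i)
    · funext i
      exact he2 _ (hw.1.2 i) _ (hw'.1.2 i) (congrFun heq.2 i)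

lemma energy_congr (h x : ℕ) (s s' : ℕ → ℤ) (hs : ∀ m ∈ Icc 1 x, s m = s' m) : energy h x s = energy h x s' := by
  unfold energy
  congr 1
  apply filter_congr
  intro w hw
  rw [mem_product, Fintype.mem_piFinset, Fintype.mem_piFinset] at hw
  rw [sum_congr rfl fun i _ => hs _ (hw.1 i), sum_congr rfl fun i _ => hs _ (hw.2 i)]

end

/-- a property of vectors of natural numbers holds for almost all members of all products of families of nearly minimal
energy (at `N`) -/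
def CritF (k B h D U N : ℕ) (P : (Fin k → ℕ) → Prop) : Prop :=
  ∀ (x : Fin k → ℕ) (s : Fin k → ℕ → ℕ),
    (∀ i, ∀ m ∈ Icc 1 (x i), s i m ≤ B * N) →
    (∀ i, (energy h (x i) (fun m => (s i m : ℤ)) : ℝ) * N ≤ Real.log N ^ D * (x i : ℝ) ^ (2 * h)) →
    ∀ T : Finset (Fin k → ℕ), T ⊆ Fintype.piFinset (fun i => Icc 1 (x i)) → (∀ m ∈ T, ¬ P (fun i => s i (m i))) →
    (T.card : ℝ) ≤ (∏ i, (x i : ℝ)) / Real.log N ^ U

/-- the vectors of natural numbers in `[0, B N]` near the small multiples of the `v i` -/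
def NearV {k : ℕ} (B C N : ℕ) (c : Fin k → ℤ) (v : Fin k → ℕ) (b : Fin k → ℕ) : Prop :=
  ∀ i, b i ≤ B * N ∧ ∃ κ : ℤ, κ ≠ 0 ∧ |(κ : ℝ)| ≤ Real.log N ^ C ∧ |((b i - (c i + κ * v i) : ℤ) : ℝ)| ≤ Real.log N ^ C

/-- one vector of multipliers and shifts -/
lemma one (k B h V W N : ℕ) (hh : 1 ≤ h) (hL : 2 ≤ Real.log N) (P : (Fin k → ℕ) → Prop)
    (hP : CritF k B h (W + 1 + 2 * h * V) V N P) (q : Fin k → ℕ) [∀ i, NeZero (q i)]
    (hq : ∀ i, (N : ℝ) ≤ q i * Real.log N ^ W) (I : Fin k → Finset ℕ) (v : ∀ i, ℕ → ZMod (q i)) (β : ℝ) (hβ : 0 ≤ β)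
    (hβN : N * β ^ (2 * h) ≤ 1)
    (H : ∀ i, ∀ a : ZMod (q i), a ≠ 0 → ‖∑ n ∈ I i, ZMod.stdAddChar (N := q i) (a * v i n)‖ ≤ (I i).card * β)
    (c κ : Fin k → ℤ) (hκ : ∀ i, κ i ≠ 0) (T : Finset (Fin k → ℕ)) (hT : T ⊆ Fintype.piFinset I)
    (hTb : ∀ m ∈ T, (∀ i, 0 ≤ c i + κ i * ((v i (m i)).val : ℤ) ∧ c i + κ i * ((v i (m i)).val : ℤ) ≤ B * N) ∧
      ¬ P (fun i => (c i + κ i * ((v i (m i)).val : ℤ)).toNat)) :
    (T.card : ℝ) ≤ (∏ i, ((I i).card : ℝ)) / Real.log N ^ V := by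
  classical
  obtain ⟨L, hLd⟩ : ∃ L, L = Real.log (N : ℝ) := ⟨_, rfl⟩
  unfold CritF at hP
  rw [← hLd] at hL hP hq ⊢
  have hL0 : 0 < L := by linarith
  obtain ⟨J, hJ⟩ : ∃ J : Fin k → Finset ℕ, J = fun i => (I i).filter (fun n => 0 ≤ c i + κ i * ((v i n).val : ℤ) ∧
      c i + κ i * ((v i n).val : ℤ) ≤ B * N) := ⟨_, rfl⟩
  have hJI : ∀ i, J i ⊆ I i := fun i => by rw [hJ]; exact filter_subset _ _
  have hJr : ∀ i, ((J i).card : ℝ) ≤ (I i).card := fun i => by exact_mod_cast card_le_card (hJI i)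
  have hTJ : T ⊆ Fintype.piFinset J := by
    intro m hm
    rw [Fintype.mem_piFinset]
    intro i
    rw [hJ]
    exact mem_filter.2 ⟨Fintype.mem_piFinset.1 (hT hm) i, (hTb m hm).1 i⟩
  have hTc : (T.card : ℝ) ≤ ∏ i, ((J i).card : ℝ) := by
    have h2 := card_le_card hTJ
    rw [Fintype.card_piFinset] at h2
    exact_mod_cast h2
  by_cases hsm : ∃ i, ((J i).card : ℝ) * L ^ V ≤ (I i).card
  · obtain ⟨i₀, hi₀⟩ := hsm
    refine hTc.trans ?_
    rw [le_div_iff₀ (by positivity), ← mul_prod_erase univ (fun i => ((J i).card : ℝ)) (mem_univ i₀),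
      ← mul_prod_erase univ (fun i => ((I i).card : ℝ)) (mem_univ i₀)]
    calc ((J i₀).card : ℝ) * (∏ i ∈ univ.erase i₀, ((J i).card : ℝ)) * L ^ V
        = ((J i₀).card : ℝ) * L ^ V * ∏ i ∈ univ.erase i₀, ((J i).card : ℝ) := by ring
      _ ≤ (I i₀).card * ∏ i ∈ univ.erase i₀, ((I i).card : ℝ) := by
          apply mul_le_mul hi₀ _ (prod_nonneg fun i _ => Nat.cast_nonneg _) (Nat.cast_nonneg _)
          exact prod_le_prod (fun i _ => Nat.cast_nonneg _) (fun i _ => hJr i)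
  push Not at hsm
  choose e he1 he2 he3 using fun i => enum (J i)
  have hJb : ∀ i, ∀ m ∈ Icc 1 (J i).card, 0 ≤ c i + κ i * ((v i (e i m)).val : ℤ) ∧
      c i + κ i * ((v i (e i m)).val : ℤ) ≤ B * N := by
    intro i m hm
    have h2 := he1 i m hm
    rw [hJ] at h2
    exact (mem_filter.1 h2).2
  have hfin := hP (fun i => (J i).card) (fun i m => (c i + κ i * ((v i (e i m)).val : ℤ)).toNat) (fun i m hm => by
      have h2 := hJb i m hm
      have h3 : (((c i + κ i * ((v i (e i m)).val : ℤ)).toNat : ℕ) : ℤ) ≤ ((B * N : ℕ) : ℤ) := by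
        rw [Int.toNat_of_nonneg h2.1]
        push_cast
        exact h2.2
      exact_mod_cast h3) (fun i => by
      rw [energy_congr h (J i).card (fun m => (((c i + κ i * ((v i (e i m)).val : ℤ)).toNat : ℕ) : ℤ))
        (fun m => c i + κ i * ((v i (e i m)).val : ℤ)) (fun m hm => Int.toNat_of_nonneg (hJb i m hm).1)]
      have h2 : (energy h (J i).card (fun m => c i + κ i * ((v i (e i m)).val : ℤ)) : ℝ) ≤
          ((I i).card : ℝ) ^ (2 * h) * (1 / q i + β ^ (2 * h)) := by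
        refine le_trans ?_ (energy_mod_le h (I i) (v i) β hβ (H i))
        exact_mod_cast energy_fam h (I i) (J i) (hJI i) (e i) (he1 i) (he2 i) (v i) (c i) (κ i) (hκ i)
      have hq0 : (0 : ℝ) < q i := by exact_mod_cast q_pos (q := q i)
      have h3 : (1 / (q i : ℝ) + β ^ (2 * h)) * N ≤ L ^ (W + 1) := by
        have h4 : (1 / (q i : ℝ)) * N ≤ L ^ W := by
          rw [one_div, inv_mul_le_iff₀ hq0]
          exact hq i
        have h5 : (1 : ℝ) ≤ L ^ W := one_le_pow₀ (by linarith)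
        rw [add_mul, pow_succ]
        nlinarith
      calc (energy h (J i).card (fun m => c i + κ i * ((v i (e i m)).val : ℤ)) : ℝ) * N
          ≤ (((I i).card : ℝ) ^ (2 * h) * (1 / q i + β ^ (2 * h))) * N := mul_le_mul_of_nonneg_right h2 (Nat.cast_nonneg _)
        _ = ((I i).card : ℝ) ^ (2 * h) * ((1 / (q i : ℝ) + β ^ (2 * h)) * N) := by ring
        _ ≤ (((J i).card : ℝ) * L ^ V) ^ (2 * h) * L ^ (W + 1) := by
            have g1 : (0 : ℝ) ≤ 1 / (q i : ℝ) := one_div_nonneg.2 hq0.le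
            have g2 : (0 : ℝ) ≤ β ^ (2 * h) := pow_nonneg hβ _
            have g3 : (0 : ℝ) ≤ (1 / (q i : ℝ) + β ^ (2 * h)) * N := mul_nonneg (add_nonneg g1 g2) (Nat.cast_nonneg _)
            have g4 : (0 : ℝ) ≤ (((J i).card : ℝ) * L ^ V) ^ (2 * h) :=
              pow_nonneg (mul_nonneg (Nat.cast_nonneg _) (pow_nonneg hL0.le _)) _
            exact mul_le_mul (pow_le_pow_left₀ (Nat.cast_nonneg _) (hsm i).le _) h3 g3 g4
        _ = _ := by
            rw [mul_pow, ← pow_mul, pow_add L (W + 1), mul_comm V (2 * h)]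
            ac_rfl)
    ((Fintype.piFinset (fun i => Icc 1 (J i).card)).filter (fun m => (fun i => e i (m i)) ∈ T)) (filter_subset _ _) (by
      intro m hm
      exact (hTb _ (mem_filter.1 hm).2).2)
  have hcardT : T.card ≤ ((Fintype.piFinset (fun i => Icc 1 (J i).card)).filter
      (fun m => (fun i => e i (m i)) ∈ T)).card := by
    apply card_le_card_of_surjOn (fun m i => e i (m i))
    intro l hl
    have hlJ := Fintype.mem_piFinset.1 (hTJ hl)
    choose m hm hml using fun i => he3 i (l i) (hlJ i)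
    refine ⟨m, ?_, funext hml⟩
    rw [mem_coe, mem_filter, Fintype.mem_piFinset]
    have e1 : (fun i => e i (m i)) = l := funext hml
    exact ⟨hm, by rw [e1]; exact hl⟩
  calc (T.card : ℝ) ≤ _ := Nat.cast_le.2 hcardT
    _ ≤ (∏ i, ((J i).card : ℝ)) / L ^ V := hfin
    _ ≤ (∏ i, ((I i).card : ℝ)) / L ^ V := by
        apply div_le_div_of_nonneg_right _ (by positivity)
        exact prod_le_prod (fun i _ => Nat.cast_nonneg _) (fun i _ => hJr i)

lemma ev_log (K : ℕ) : ∃ N₀ : ℕ, ∀ N : ℕ, N₀ ≤ N → (K : ℝ) ≤ Real.log N := by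
  obtain ⟨N₀, h⟩ := Filter.eventually_atTop.1
    ((Real.tendsto_log_atTop.comp tendsto_natCast_atTop_atTop).eventually_ge_atTop (K : ℝ))
  exact ⟨N₀, fun N hN => h N hN⟩

/-- **all the vectors of integers near the small multiples of residues with small Fourier coefficients** -/
theorem nearFam (k B C U W : ℕ) (δ : ℝ) (hδ : 0 < δ) : ∃ h D V N₀ : ℕ, 1 ≤ h ∧ ∀ N : ℕ, N₀ ≤ N →
    ∀ P : (Fin k → ℕ) → Prop, CritF k B h D V N P →
    ∀ (q : Fin k → ℕ) [∀ i, NeZero (q i)], (∀ i, (N : ℝ) ≤ q i * Real.log N ^ W) →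
    ∀ (I : Fin k → Finset ℕ) (v : ∀ i, ℕ → ZMod (q i)),
    (∀ i, ∀ a : ZMod (q i), a ≠ 0 → ‖∑ n ∈ I i, ZMod.stdAddChar (N := q i) (a * v i n)‖ ≤ (I i).card * (N : ℝ) ^ (-δ)) →
    ∀ c : Fin k → ℤ, ∀ T ⊆ Fintype.piFinset I,
      (∀ m ∈ T, ∃ b : Fin k → ℕ, NearV B C N c (fun i => (v i (m i)).val) b ∧ ¬ P b) →
      (T.card : ℝ) ≤ (∏ i, ((I i).card : ℝ)) / Real.log N ^ U := by
  classical
  obtain ⟨h, hhδ⟩ : ∃ h : ℕ, 1 / δ + 1 ≤ h := ⟨⌈1 / δ + 1⌉₊, Nat.le_ceil _⟩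
  have hδ1 : 0 < 1 / δ := by positivity
  have hh : 1 ≤ h := by
    have : (1 : ℝ) ≤ h := by linarith
    exact_mod_cast this
  obtain ⟨V, hV⟩ : ∃ V, V = U + (2 * C + 1) * k := ⟨_, rfl⟩
  obtain ⟨n1, hn1⟩ := ev_log 9
  refine ⟨h, W + 1 + 2 * h * V, V, n1 + 1, hh, fun N hN P hP q _ hq I v H c T hT hTb => ?_⟩
  have hL := hn1 N (by omega)
  push_cast at hL
  obtain ⟨L, hLd⟩ : ∃ L, L = Real.log (N : ℝ) := ⟨_, rfl⟩
  have hN1 : (1 : ℝ) ≤ N := by exact_mod_cast (by omega : 1 ≤ N)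
  have hβN : (N : ℝ) * ((N : ℝ) ^ (-δ)) ^ (2 * h) ≤ 1 := by
    have e1 : ((N : ℝ) ^ (-δ)) ^ (2 * h) = (N : ℝ) ^ (-δ * (2 * h : ℕ)) := by
      rw [← Real.rpow_natCast, ← Real.rpow_mul (by linarith)]
    have e2 : (N : ℝ) * (N : ℝ) ^ (-δ * (2 * h : ℕ)) = (N : ℝ) ^ (1 + -δ * (2 * h : ℕ)) := by
      rw [Real.rpow_add (by linarith), Real.rpow_one]
    rw [e1, e2]
    apply Real.rpow_le_one_of_one_le_of_nonpos hN1
    push_cast
    have e3 : 1 ≤ δ * h := by
      have := mul_le_mul_of_nonneg_left hhδ hδ.le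
      have e4 : δ * (1 / δ + 1) = 1 + δ := by field_simp
      rw [e4] at this
      linarith
    nlinarith
  have hone := fun c κ hκ T hT hTb => one k B h V W N hh (by linarith) P hP q hq I v _ (by positivity) hβN H c κ hκ T hT hTb
  rw [← hLd] at hL hone ⊢
  have hL0 : 0 < L := by linarith
  -- the multipliers and the shifts
  obtain ⟨m, hm⟩ : ∃ m : ℕ, m = ⌊L ^ C⌋₊ := ⟨_, rfl⟩
  have hm1 : (m : ℝ) ≤ L ^ C := by rw [hm]; exact Nat.floor_le (by positivity)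
  have hle : ∀ z : ℤ, |(z : ℝ)| ≤ L ^ C → z ∈ Icc (-(m : ℤ)) m := by
    intro z hz
    have e1 : (z.natAbs : ℝ) ≤ L ^ C := by
      rw [Nat.cast_natAbs]
      push_cast
      exact hz
    have e2 : z.natAbs ≤ m := by rw [hm]; exact Nat.le_floor e1
    rw [mem_Icc]
    omega
  obtain ⟨R, hR⟩ : ∃ R : Finset (ℤ × ℤ), R = (Icc (-(m : ℤ)) m) ×ˢ (Icc (-(m : ℤ)) m) := ⟨_, rfl⟩
  have hRc : (R.card : ℝ) ≤ L ^ (2 * C + 1) := by
    have e1 : R.card = (2 * m + 1) * (2 * m + 1) := by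
      rw [hR, card_product, Int.card_Icc]
      have : ((m : ℤ) + 1 - -(m : ℤ)).toNat = 2 * m + 1 := by omega
      rw [this]
    have e2 : (R.card : ℝ) = (2 * (m : ℝ) + 1) * (2 * (m : ℝ) + 1) := by rw [e1]; push_cast; ring
    have e0 : (1 : ℝ) ≤ L ^ C := one_le_pow₀ (by linarith)
    have e3 : 2 * (m : ℝ) + 1 ≤ 3 * L ^ C := by linarith
    have e4 : (0 : ℝ) ≤ m := Nat.cast_nonneg m
    rw [e2]
    calc (2 * (m : ℝ) + 1) * (2 * (m : ℝ) + 1) ≤ (3 * L ^ C) * (3 * L ^ C) := by gcongr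
      _ = 9 * L ^ (2 * C) := by rw [two_mul, pow_add]; ring
      _ ≤ L * L ^ (2 * C) := mul_le_mul_of_nonneg_right hL (by positivity)
      _ = _ := by rw [pow_succ]; ring
  obtain ⟨Tw, hTw⟩ : ∃ Tw : (Fin k → ℤ × ℤ) → Finset (Fin k → ℕ), Tw = fun w => T.filter (fun t =>
      (∀ i, (w i).1 ≠ 0) ∧ (∀ i, 0 ≤ (c i + (w i).2) + (w i).1 * ((v i (t i)).val : ℤ) ∧
        (c i + (w i).2) + (w i).1 * ((v i (t i)).val : ℤ) ≤ B * N) ∧
        ¬ P (fun i => ((c i + (w i).2) + (w i).1 * ((v i (t i)).val : ℤ)).toNat)) := ⟨_, rfl⟩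
  have hcov : T ⊆ (Fintype.piFinset (fun _ : Fin k => R)).biUnion Tw := by
    intro t ht
    obtain ⟨b, hb, hPb⟩ := hTb t ht
    unfold NearV at hb
    choose hb1 κ hκ0 hκ1 hb2 using hb
    rw [mem_biUnion]
    refine ⟨fun i => (κ i, (b i : ℤ) - (c i + κ i * ((v i (t i)).val : ℤ))), ?_, ?_⟩
    · rw [Fintype.mem_piFinset]
      intro i
      rw [hR, mem_product]
      refine ⟨hle _ ?_, hle _ ?_⟩
      · rw [hLd]; exact hκ1 i
      · rw [hLd]; exact hb2 i
    · rw [hTw]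
      refine mem_filter.2 ⟨ht, hκ0, ?_⟩
      have e1 : ∀ i, (c i + ((b i : ℤ) - (c i + κ i * ((v i (t i)).val : ℤ)))) + κ i * ((v i (t i)).val : ℤ) = (b i : ℤ) :=
        fun i => by ring
      simp only [e1, Int.toNat_natCast]
      exact ⟨fun i => ⟨Int.natCast_nonneg _, by exact_mod_cast hb1 i⟩, hPb⟩
  have hsum : (T.card : ℝ) ≤ ∑ w ∈ Fintype.piFinset (fun _ : Fin k => R), ((Tw w).card : ℝ) := by
    have := (card_le_card hcov).trans card_biUnion_le
    exact_mod_cast this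
  refine hsum.trans ?_
  have hprod0 : 0 ≤ ∏ i, ((I i).card : ℝ) := prod_nonneg fun i _ => Nat.cast_nonneg _
  have hw : ∀ w ∈ Fintype.piFinset (fun _ : Fin k => R), ((Tw w).card : ℝ) ≤ (∏ i, ((I i).card : ℝ)) / L ^ V := by
    intro w _
    by_cases h0 : ∀ i, (w i).1 ≠ 0
    · apply hone (fun i => c i + (w i).2) (fun i => (w i).1) h0 (Tw w)
      · rw [hTw]
        exact (filter_subset _ _).trans hT
      · intro t ht
        rw [hTw] at ht
        exact (mem_filter.1 ht).2.2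
    · have : Tw w = ∅ := by
        rw [hTw]
        apply filter_false_of_mem
        intro t _ h1
        exact h0 h1.1
      rw [this, card_empty, Nat.cast_zero]
      positivity
  refine (sum_le_sum hw).trans ?_
  rw [sum_const, nsmul_eq_mul, Fintype.card_piFinset, prod_const, card_univ, Fintype.card_fin]
  push_cast
  have e1 : (R.card : ℝ) ^ k ≤ L ^ ((2 * C + 1) * k) := by
    rw [pow_mul]
    exact pow_le_pow_left₀ (Nat.cast_nonneg _) hRc k
  calc (R.card : ℝ) ^ k * ((∏ i, ((I i).card : ℝ)) / L ^ V) ≤ L ^ ((2 * C + 1) * k) * ((∏ i, ((I i).card : ℝ)) / L ^ V) :=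
        mul_le_mul_of_nonneg_right e1 (by positivity)
    _ = (∏ i, ((I i).card : ℝ)) / L ^ U := by
        rw [hV, pow_add]
        field_simp

end Pool.Agent.U613.GR
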