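import Pool.Agent.U613.GR.Fam
import Pool.Agent.H560R3.GB.Tup3
import Pool.Agent.H560R3.GB.Defs
import Pool.Agent.U642.BG.Expo

set_option autoImplicit false

/-! Prime tuples: the criterion, and geometric progressions modulo primes. -/

namespace Pool.Agent.U613.GR
open Finset Pool.Agent.H560R3.GB
open Pool.Agent.H373R2.T7 (singZ tupleCount Admissible)

/-- the formula of Hardy and Littlewood for the shifts `a` and the primes up to `N` -/
def Fine {k : ℕ} (c ε : ℝ) (N : ℕ) (a : Fin k → ℕ) : Prop :=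
  ∃ S : ℝ, Filter.Tendsto (fun z => singZ (fun i => (a i : ℤ)) z) Filter.atTop (nhds S) ∧
    (Admissible (fun i => (a i : ℤ)) → c ≤ S ∧
      |(primeTuples a N : ℝ) - S * (N / Real.log N ^ (k + 1))| ≤ ε * (S * (N / Real.log N ^ (k + 1))))

lemma crit (k B : ℕ) (hk : 1 ≤ k) (c ε : ℝ) (hc : 0 < c)
    (hlow : ∀ a : Fin k → ℤ, Admissible a → ∀ z : ℕ, c ≤ singZ a z) (hε : 0 < ε) (h D U : ℕ) (hh : 1 ≤ h) :
    ∃ N₀ : ℕ, ∀ N : ℕ, N₀ ≤ N → CritF k B h D U N (Fine c ε N) := by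
  classical
  obtain ⟨N₀, h0⟩ := ftuples_full k h B D (max U 1) hk hh
  obtain ⟨N₁, h1⟩ := tuple_transfer k B c ε hc hε
  obtain ⟨N₂, h2⟩ := Pool.Agent.H373R2.T7.ev_L' 1
  refine ⟨N₀ + N₁ + N₂ + 3, fun N hN x s hs hE T hT hTb => ?_⟩
  have hL := h2 N (by omega)
  have hL0 : 0 < Real.log (N : ℝ) := by linarith
  have hN0 : (0 : ℝ) ≤ N := Nat.cast_nonneg _
  have hp0 : 0 ≤ ∏ i, (x i : ℝ) := prod_nonneg fun i _ => Nat.cast_nonneg _
  by_cases hx : ∀ i, 1 ≤ x i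
  swap
  · push Not at hx
    obtain ⟨i, hi⟩ := hx
    have hT0 : T = ∅ := by
      rw [eq_empty_iff_forall_notMem]
      intro m hm
      have := mem_Icc.1 (Fintype.mem_piFinset.1 (hT hm) i)
      omega
    rw [hT0, card_empty, Nat.cast_zero]
    positivity
  have h3 := h0 N (by omega) x s hx hs hE
  refine le_trans ?_ (h3.trans ?_)
  · have hsub : T ⊆ (Fintype.piFinset (fun i => Icc 1 (x i))).filter (fun m : Fin k → ℕ =>
        ¬ ∃ S : ℝ, Filter.Tendsto (fun z => singZ (fun i => (s i (m i) : ℤ)) z) Filter.atTop (nhds S) ∧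
        |tupleCount (fun i => (s i (m i) : ℤ)) N - S * N| ≤ (N : ℝ) / Real.log N ^ (max U 1)) := by
      intro m hm
      rw [mem_filter]
      refine ⟨hT hm, fun hcon => hTb m hm ?_⟩
      obtain ⟨S, hS, hS2⟩ := hcon
      refine ⟨S, hS, fun hadm => ?_⟩
      have hcS : c ≤ S := ge_of_tendsto' hS (hlow _ hadm)
      refine ⟨hcS, ?_⟩
      apply h1 N (by omega) (fun i => s i (m i)) (fun i => ?_) S hcS
      · refine hS2.trans ?_
        apply div_le_div_of_nonneg_left hN0 hL0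
        calc Real.log (N : ℝ) = Real.log N ^ 1 := (pow_one _).symm
          _ ≤ Real.log N ^ (max U 1) := pow_le_pow_right₀ hL (le_max_right _ _)
      · exact hs i (m i) (Fintype.mem_piFinset.1 (hT hm) i)
    exact_mod_cast card_le_card hsub
  · apply div_le_div_of_nonneg_left hp0 (by positivity)
    exact pow_le_pow_right₀ hL (le_max_left _ _)

/-- the exponential sums over geometric progressions, for moduli which are not too small -/
lemma geo_fam (η : ℝ) (hη : 0 < η) (W : ℕ) : ∃ δ : ℝ, 0 < δ ∧ ∃ N₀ : ℕ, ∀ N : ℕ, N₀ ≤ N → ∀ p : ℕ, ∀ [Fact p.Prime],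
    (N : ℝ) ≤ p * Real.log N ^ W → ∀ g s : ZMod p, (p : ℝ) ^ η ≤ orderOf g → s ≠ 0 → ∀ a M : ℕ, (p : ℝ) ^ η ≤ M →
    ∀ y : ZMod p, y ≠ 0 → ‖∑ n ∈ Ico a (a + M), ZMod.stdAddChar (N := p) (y * (s * g ^ n))‖ ≤
      (Ico a (a + M)).card * (N : ℝ) ^ (-δ) := by
  obtain ⟨δ, hδ, p₁, h1⟩ := Pool.Agent.U642.BG.expo η hη
  have h2 := (isLittleO_log_rpow_rpow_atTop (W : ℝ) (show (0 : ℝ) < 1 / 2 by norm_num)).bound (show (0 : ℝ) < 1 by norm_num)
  obtain ⟨N₀, hN₀⟩ := Filter.eventually_atTop.1 (tendsto_natCast_atTop_atTop.eventually h2)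
  refine ⟨δ / 2, by positivity, N₀ + (p₁ + 1) ^ 2 + 3, fun N hN p _ hp g s hg hs a M hM y hy => ?_⟩
  have h3 := hN₀ N (by omega)
  have hN3 : (3 : ℝ) ≤ N := by exact_mod_cast (by omega : 3 ≤ N)
  have hN0 : (0 : ℝ) < N := by linarith
  have hl0 : 0 < Real.log (N : ℝ) := Real.log_pos (by linarith)
  rw [Real.norm_of_nonneg (by positivity), Real.norm_of_nonneg (by positivity), one_mul, Real.rpow_natCast] at h3
  have hpN : (N : ℝ) ^ (1 / 2 : ℝ) ≤ p := by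
    have e1 : (N : ℝ) ≤ p * (N : ℝ) ^ (1 / 2 : ℝ) := hp.trans (mul_le_mul_of_nonneg_left h3 (Nat.cast_nonneg _))
    have e2 : (N : ℝ) = (N : ℝ) ^ (1 / 2 : ℝ) * (N : ℝ) ^ (1 / 2 : ℝ) := by
      rw [← Real.rpow_add hN0]
      norm_num
    have e3 : (0 : ℝ) < (N : ℝ) ^ (1 / 2 : ℝ) := by positivity
    nlinarith
  have hp1 : p₁ ≤ p := by
    have e1 : (((p₁ + 1) ^ 2 : ℕ) : ℝ) ≤ N := by exact_mod_cast (by omega : (p₁ + 1) ^ 2 ≤ N)
    have e2 : (((p₁ + 1) ^ 2 : ℕ) : ℝ) ^ (1 / 2 : ℝ) ≤ (N : ℝ) ^ (1 / 2 : ℝ) :=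
      Real.rpow_le_rpow (Nat.cast_nonneg _) e1 (by norm_num)
    have e3 : (((p₁ + 1) ^ 2 : ℕ) : ℝ) ^ (1 / 2 : ℝ) = (p₁ : ℝ) + 1 := by
      push_cast
      rw [← Real.rpow_natCast, ← Real.rpow_mul (by positivity)]
      norm_num
    rw [e3] at e2
    have e4 : (p₁ : ℝ) ≤ p := by linarith
    exact_mod_cast e4
  have h4 := h1 p hp1 g hg a M hM (y * s) (mul_ne_zero hy hs)
  simp only [← mul_assoc]
  refine h4.trans ?_
  rw [Nat.card_Ico, Nat.add_sub_cancel_left]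
  apply mul_le_mul_of_nonneg_left _ (Nat.cast_nonneg _)
  have hp0 : (0 : ℝ) < p := lt_of_lt_of_le (by positivity) hpN
  rw [Real.rpow_neg hp0.le, Real.rpow_neg hN0.le]
  apply inv_anti₀ (by positivity)
  calc (N : ℝ) ^ (δ / 2) = ((N : ℝ) ^ (1 / 2 : ℝ)) ^ δ := by
        rw [← Real.rpow_mul hN0.le]
        congr 1
        ring
    _ ≤ (p : ℝ) ^ δ := Real.rpow_le_rpow (by positivity) hpN hδ.le

end Pool.Agent.U613.GR
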